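import Mathlib
set_option autoImplicit false

namespace Pool.Agent.TH367.MV

open MeasureTheory Set Complex
open scoped ENNReal NNReal Real ComplexConjugate ContDiff Topology

/-- the integral of `1 / (1 + t x²)` -/
theorem int_bd (a b y t : ℝ) (ht : 0 < t) :
    ∫ r in a..b, (1 + t * (r - y) ^ 2)⁻¹ ≤ π / √t := by
  have hs : 0 < √t := Real.sqrt_pos.2 ht
  have h1 : ∀ r : ℝ, (1 + t * (r - y) ^ 2)⁻¹ = (fun x : ℝ => (1 + x ^ 2)⁻¹) (√t * r - √t * y) := by
    intro r
    have : (√t * r - √t * y) ^ 2 = t * (r - y) ^ 2 := by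
      rw [← mul_sub, mul_pow, Real.sq_sqrt ht.le]
    simp only [this]
  simp_rw [h1]
  rw [intervalIntegral.integral_comp_mul_sub (fun x : ℝ => (1 + x ^ 2)⁻¹) hs.ne' (√t * y)]
  rw [integral_inv_one_add_sq]
  have h2 := Real.arctan_lt_pi_div_two (√t * b - √t * y)
  have h3 := Real.neg_pi_div_two_lt_arctan (√t * a - √t * y)
  rw [smul_eq_mul, div_eq_inv_mul]
  exact mul_le_mul_of_nonneg_left (by linarith) (inv_nonneg.2 hs.le)

/-- stationary phase: the bound -/
theorem L1 (a b y t M : ℝ) (hab : a ≤ b) (ht : 0 < t) (hM : 0 ≤ M) (E k k' f f' : ℝ → ℝ)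
    (hE : ∀ r ∈ Icc a b, HasDerivAt E ((r - y) / k r) r)
    (hk : ∀ r ∈ Icc a b, HasDerivAt k (k' r) r) (hk0 : ∀ r ∈ Icc a b, k r ≠ 0)
    (hkM : ∀ r ∈ Icc a b, |k r| ≤ M) (hkM' : ∀ r ∈ Icc a b, |k' r| ≤ M)
    (hkc : ContinuousOn k' (Icc a b))
    (hf : ∀ r ∈ Icc a b, HasDerivAt f (f' r) r)
    (hfM : ∀ r ∈ Icc a b, |f r| ≤ M) (hfM' : ∀ r ∈ Icc a b, |f' r| ≤ M)
    (hfc : ContinuousOn f' (Icc a b)) (hy : ∀ r ∈ Icc a b, |r - y| ≤ M)
    (fa : f a = 0) (fb : f b = 0) :
    ‖∫ r in a..b, (f r : ℂ) * cexp (-(I * ((t * E r : ℝ) : ℂ)))‖ ≤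
      2 * ((M + 1 + M ^ 2) * M + M ^ 3 + 4 * M ^ 2) * (π / √t) := by
  have hu : uIcc a b = Icc a b := uIcc_of_le hab
  -- the denominator
  set D : ℝ → ℂ := fun r => 1 - I * ((t * (r - y) ^ 2 : ℝ) : ℂ) with hD
  have hDn : ∀ r, (1 + t * (r - y) ^ 2) ≤ 2 * ‖D r‖ := by
    intro r
    have h1 : |(D r).re| ≤ ‖D r‖ := Complex.abs_re_le_norm _
    have h2 : |(D r).im| ≤ ‖D r‖ := Complex.abs_im_le_norm _
    have e1 : (D r).re = 1 := by
      simp only [hD, Complex.sub_re, Complex.one_re, Complex.I_mul_re, Complex.ofReal_im]; ring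
    have e2 : (D r).im = -(t * (r - y) ^ 2) := by
      simp only [hD, Complex.sub_im, Complex.one_im, Complex.I_mul_im, Complex.ofReal_re]; ring
    rw [e1, abs_one] at h1
    rw [e2, abs_neg] at h2
    have := le_abs_self (t * (r - y) ^ 2)
    linarith
  have hpos : ∀ r, 0 < 1 + t * (r - y) ^ 2 := fun r => by positivity
  have hD0 : ∀ r, D r ≠ 0 := by
    intro r h
    have := hDn r
    rw [h, norm_zero] at this
    linarith [hpos r]
  have hDd : ∀ r, HasDerivAt D (-(I * ((t * (2 * (r - y)) : ℝ) : ℂ))) r := by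
    intro r
    have h1 : HasDerivAt (fun r : ℝ => t * (r - y) ^ 2) (t * (2 * (r - y))) r := by
      have := (((hasDerivAt_id r).sub_const y).pow 2).const_mul t
      simpa using this
    have h2 := (h1.ofReal_comp.const_mul I).const_sub 1
    exact h2
  -- exponential
  set e : ℝ → ℂ := fun r => cexp (-(I * ((t * E r : ℝ) : ℂ))) with he
  have hen : ∀ r, ‖e r‖ = 1 := by
    intro r
    rw [he]
    have : -(I * ((t * E r : ℝ) : ℂ)) = ((-(t * E r) : ℝ) : ℂ) * I := by push_cast; ring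
    simp only [this]
    exact Complex.norm_exp_ofReal_mul_I _
  have hed : ∀ r ∈ Icc a b, HasDerivAt e (e r * (-(I * ((t * ((r - y) / k r) : ℝ) : ℂ)))) r := by
    intro r hr
    have h1 := ((hE r hr).const_mul t).ofReal_comp
    have h2 := ((h1.const_mul I).neg).cexp
    exact h2
  -- the primitive
  set g : ℝ → ℂ := fun r => (f r : ℂ) / D r with hg
  set g' : ℝ → ℂ := fun r => ((f' r : ℂ) * D r - (f r : ℂ) * (-(I * ((t * (2 * (r - y)) : ℝ) : ℂ)))) /
    D r ^ 2 with hg'
  have hgd : ∀ r ∈ Icc a b, HasDerivAt g (g' r) r := by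
    intro r hr
    exact (hf r hr).ofReal_comp.div (hDd r) (hD0 r)
  set P : ℝ → ℂ := fun r => (((r - y) * k r : ℝ) : ℂ) * g r * e r with hP
  have hPd : ∀ r ∈ Icc a b, HasDerivAt P ((f r : ℂ) * e r +
      e r * (((k r - 1 + (r - y) * k' r : ℝ) : ℂ) * g r + (((r - y) * k r : ℝ) : ℂ) * g' r)) r := by
    intro r hr
    have h1 : HasDerivAt (fun r : ℝ => (r - y) * k r) (1 * k r + (r - y) * k' r) r :=
      ((hasDerivAt_id r).sub_const y).mul (hk r hr)
    have h2 := (h1.ofReal_comp.mul (hgd r hr)).mul (hed r hr)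
    refine h2.congr_deriv ?_
    have hk0' : (k r : ℂ) ≠ 0 := by exact_mod_cast hk0 r hr
    have h3 : (f r : ℂ) = g r * D r := by
      simp only [hg]; field_simp [hD0 r]
    have h4 : (((r - y) * k r : ℝ) : ℂ) * g r * (e r * (-(I * ((t * ((r - y) / k r) : ℝ) : ℂ)))) =
        g r * e r * (D r - 1) := by
      simp only [hD]
      push_cast
      field_simp
      ring
    change (((1 * k r + (r - y) * k' r : ℝ) : ℂ) * g r + (((r - y) * k r : ℝ) : ℂ) * g' r) * e r +
      (((r - y) * k r : ℝ) : ℂ) * g r * (e r * (-(I * ((t * ((r - y) / k r) : ℝ) : ℂ)))) = _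
    rw [h4, h3]
    push_cast
    ring
  have hec : ContinuousOn e (Icc a b) := fun r hr => (hed r hr).continuousAt.continuousWithinAt
  have hgc : ContinuousOn g (Icc a b) := fun r hr => (hgd r hr).continuousAt.continuousWithinAt
  have hfcc : ContinuousOn f (Icc a b) := fun r hr => (hf r hr).continuousAt.continuousWithinAt
  have hkcc : ContinuousOn k (Icc a b) := fun r hr => (hk r hr).continuousAt.continuousWithinAt
  have hDc : Continuous D := continuous_iff_continuousAt.2 fun r => (hDd r).continuousAt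
  have hgc' : ContinuousOn g' (Icc a b) := by
    simp only [hg']
    refine ContinuousOn.div ?_ (hDc.pow 2).continuousOn (fun r _ => pow_ne_zero 2 (hD0 r))
    refine ContinuousOn.sub ?_ ?_
    · exact (Complex.continuous_ofReal.comp_continuousOn hfc).mul hDc.continuousOn
    · refine (Complex.continuous_ofReal.comp_continuousOn hfcc).mul ?_
      exact (Continuous.continuousOn (by fun_prop))
  set R : ℝ → ℂ := fun r => e r * (((k r - 1 + (r - y) * k' r : ℝ) : ℂ) * g r +
    (((r - y) * k r : ℝ) : ℂ) * g' r) with hR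
  have hRc : ContinuousOn R (Icc a b) := by
    simp only [hR]
    refine hec.mul (ContinuousOn.add ?_ ?_)
    · refine ContinuousOn.mul ?_ hgc
      refine Complex.continuous_ofReal.comp_continuousOn ?_
      exact (hkcc.sub continuousOn_const).add (ContinuousOn.mul (by fun_prop) hkc)
    · refine ContinuousOn.mul ?_ hgc'
      refine Complex.continuous_ofReal.comp_continuousOn ?_
      exact ContinuousOn.mul (by fun_prop) hkcc
  have hfe : ContinuousOn (fun r => (f r : ℂ) * e r) (Icc a b) :=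
    (Complex.continuous_ofReal.comp_continuousOn hfcc).mul hec
  have i1 : IntervalIntegrable (fun r => (f r : ℂ) * e r) volume a b :=
    (hu ▸ hfe : ContinuousOn _ (uIcc a b)).intervalIntegrable
  have i2 : IntervalIntegrable R volume a b :=
    (hu ▸ hRc : ContinuousOn _ (uIcc a b)).intervalIntegrable
  have key : ∫ r in a..b, ((f r : ℂ) * e r + R r) = P b - P a := by
    apply intervalIntegral.integral_eq_sub_of_hasDerivAt
    · intro r hr
      exact hPd r (hu ▸ hr)
    · exact i1.add i2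
  have hPa : P a = 0 := by simp [hP, hg, fa]
  have hPb : P b = 0 := by simp [hP, hg, fb]
  rw [intervalIntegral.integral_add i1 i2, hPa, hPb, sub_zero] at key
  have key2 : ∫ r in a..b, (f r : ℂ) * e r = -∫ r in a..b, R r := by
    linear_combination key
  rw [key2, norm_neg]
  -- the bound
  set L : ℝ := 2 * ((M + 1 + M ^ 2) * M + M ^ 3 + 4 * M ^ 2) with hL
  have hRb : ∀ r ∈ Icc a b, ‖R r‖ ≤ L * (1 + t * (r - y) ^ 2)⁻¹ := by
    intro r hr
    have hn := hDn r
    have hn0 : 0 < ‖D r‖ := norm_pos_iff.2 (hD0 r)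
    have hx0 := abs_nonneg (r - y)
    have hx2 : |r - y| * |r - y| = (r - y) ^ 2 := by rw [← sq, sq_abs]
    have hg1 : ‖g r‖ ≤ M / ‖D r‖ := by
      simp only [hg, norm_div, Complex.norm_real, Real.norm_eq_abs]
      exact div_le_div_of_nonneg_right (hfM r hr) hn0.le
    have hg2 : ‖g' r‖ ≤ (M * ‖D r‖ + M * (2 * t * |r - y|)) / ‖D r‖ ^ 2 := by
      simp only [hg', norm_div, norm_pow]
      refine div_le_div_of_nonneg_right ((norm_sub_le _ _).trans (add_le_add ?_ ?_)) (by positivity)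
      · rw [norm_mul, Complex.norm_real, Real.norm_eq_abs]
        exact mul_le_mul_of_nonneg_right (hfM' r hr) hn0.le
      · rw [norm_mul, norm_neg, norm_mul, Complex.norm_real, Complex.norm_real, Complex.norm_I,
          one_mul, Real.norm_eq_abs, Real.norm_eq_abs]
        have : |t * (2 * (r - y))| = 2 * t * |r - y| := by
          rw [abs_mul, abs_mul, abs_of_pos ht, abs_of_pos (by norm_num : (0 : ℝ) < 2)]; ring
        rw [this]
        exact mul_le_mul_of_nonneg_right (hfM r hr) (by positivity)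
    have hk1 : ‖((k r - 1 + (r - y) * k' r : ℝ) : ℂ)‖ ≤ M + 1 + M ^ 2 := by
      rw [Complex.norm_real, Real.norm_eq_abs]
      refine (abs_add_le _ _).trans (add_le_add ((abs_sub _ _).trans ?_) ?_)
      · rw [abs_one]; linarith [hkM r hr]
      · rw [abs_mul, sq]
        exact mul_le_mul (hy r hr) (hkM' r hr) (abs_nonneg _) hM
    have hk2 : ‖(((r - y) * k r : ℝ) : ℂ)‖ ≤ |r - y| * M := by
      rw [Complex.norm_real, Real.norm_eq_abs, abs_mul]
      exact mul_le_mul_of_nonneg_left (hkM r hr) hx0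
    have hmain : ‖R r‖ ≤ (M + 1 + M ^ 2) * (M / ‖D r‖) +
        |r - y| * M * ((M * ‖D r‖ + M * (2 * t * |r - y|)) / ‖D r‖ ^ 2) := by
      simp only [hR]
      rw [norm_mul, hen r, one_mul]
      refine (norm_add_le _ _).trans (add_le_add ?_ ?_)
      · rw [norm_mul]
        exact mul_le_mul hk1 hg1 (norm_nonneg _) (by positivity)
      · rw [norm_mul]
        exact mul_le_mul hk2 hg2 (norm_nonneg _) (by positivity)
    refine hmain.trans ?_
    have h5 : |r - y| * M * ((M * ‖D r‖ + M * (2 * t * |r - y|)) / ‖D r‖ ^ 2) ≤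
        (M ^ 3 + 4 * M ^ 2) / ‖D r‖ := by
      rw [← mul_div_assoc, div_le_div_iff₀ (by positivity) hn0]
      have h6 : |r - y| * M * (M * ‖D r‖ + M * (2 * t * |r - y|)) =
          M ^ 2 * (|r - y| * ‖D r‖ + 2 * (t * (r - y) ^ 2)) := by
        rw [← hx2]; ring
      rw [h6]
      have h7 : |r - y| * ‖D r‖ ≤ M * ‖D r‖ := mul_le_mul_of_nonneg_right (hy r hr) hn0.le
      have h8 : |r - y| * ‖D r‖ + 2 * (t * (r - y) ^ 2) ≤ (M + 4) * ‖D r‖ := by linarith
      calc M ^ 2 * (|r - y| * ‖D r‖ + 2 * (t * (r - y) ^ 2)) * ‖D r‖ ≤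
            M ^ 2 * ((M + 4) * ‖D r‖) * ‖D r‖ := by gcongr
        _ = (M ^ 3 + 4 * M ^ 2) * ‖D r‖ ^ 2 := by ring
    have h9 : (M + 1 + M ^ 2) * (M / ‖D r‖) + (M ^ 3 + 4 * M ^ 2) / ‖D r‖ =
        ((M + 1 + M ^ 2) * M + M ^ 3 + 4 * M ^ 2) * (1 / ‖D r‖) := by ring
    have h10 : 1 / ‖D r‖ ≤ 2 * (1 + t * (r - y) ^ 2)⁻¹ := by
      rw [div_le_iff₀ hn0, mul_assoc, ← div_eq_inv_mul, ← mul_div_assoc, le_div_iff₀ (hpos r)]
      linarith
    calc _ ≤ (M + 1 + M ^ 2) * (M / ‖D r‖) + (M ^ 3 + 4 * M ^ 2) / ‖D r‖ := by linarith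
      _ = ((M + 1 + M ^ 2) * M + M ^ 3 + 4 * M ^ 2) * (1 / ‖D r‖) := h9
      _ ≤ ((M + 1 + M ^ 2) * M + M ^ 3 + 4 * M ^ 2) * (2 * (1 + t * (r - y) ^ 2)⁻¹) := by
          gcongr
      _ = L * (1 + t * (r - y) ^ 2)⁻¹ := by rw [hL]; ring
  calc ‖∫ r in a..b, R r‖ ≤ ∫ r in a..b, L * (1 + t * (r - y) ^ 2)⁻¹ := by
        apply intervalIntegral.norm_integral_le_of_norm_le hab
        · filter_upwards with r hr
          exact hRb r ⟨hr.1.le, hr.2⟩
        · apply Continuous.intervalIntegrable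
          refine continuous_const.mul (Continuous.inv₀ (by fun_prop) fun r => (hpos r).ne')
    _ = L * ∫ r in a..b, (1 + t * (r - y) ^ 2)⁻¹ := by
        rw [intervalIntegral.integral_const_mul]
    _ ≤ L * (π / √t) := by
        apply mul_le_mul_of_nonneg_left (int_bd a b y t ht)
        rw [hL]; positivity

end Pool.Agent.TH367.MV
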