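import Mathlib
import Pool.Agent.TH407.MV.Defs
import Pool.Agent.TH367.MV.StatA
set_option autoImplicit false

namespace Pool.Agent.TH367.MV

open MeasureTheory Set Complex Pool.Agent.TH407.MV
open scoped ENNReal NNReal Real ComplexConjugate ContDiff Topology

/-- the parameters with positive radius and position -/
def U : Set (ℝ × ℝ × ℝ) := {p | 0 < p.1 ∧ 0 < p.2.1}

theorem isOpen_U : IsOpen U :=
  (isOpen_lt continuous_const continuous_fst).inter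
    (isOpen_lt continuous_const (continuous_fst.comp continuous_snd))

/-- partial derivative in the radius -/
noncomputable def dr (f : ℝ × ℝ × ℝ → ℝ) (p : ℝ × ℝ × ℝ) : ℝ := fderiv ℝ f p (1, 0, 0)

/-- partial derivative in the position -/
noncomputable def dy (f : ℝ × ℝ × ℝ → ℝ) (p : ℝ × ℝ × ℝ) : ℝ := fderiv ℝ f p (0, 1, 0)

theorem cd_dr {f : ℝ × ℝ × ℝ → ℝ} (hf : ContDiffOn ℝ ∞ f U) : ContDiffOn ℝ ∞ (dr f) U :=
  (hf.fderiv_of_isOpen isOpen_U (by simp)).clm_apply contDiffOn_const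

theorem cd_dy {f : ℝ × ℝ × ℝ → ℝ} (hf : ContDiffOn ℝ ∞ f U) : ContDiffOn ℝ ∞ (dy f) U :=
  (hf.fderiv_of_isOpen isOpen_U (by simp)).clm_apply contDiffOn_const

theorem hd_r {f : ℝ × ℝ × ℝ → ℝ} (hf : ContDiffOn ℝ ∞ f U) {r y ε : ℝ} (hp : (r, y, ε) ∈ U) :
    HasDerivAt (fun r => f (r, y, ε)) (dr f (r, y, ε)) r := by
  have h1 : HasFDerivAt f (fderiv ℝ f (r, y, ε)) (r, y, ε) :=
    ((hf.contDiffAt (isOpen_U.mem_nhds hp)).differentiableAt (by simp)).hasFDerivAt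
  have h2 : HasDerivAt (fun r : ℝ => (r, y, ε)) (1, 0, 0) r :=
    (hasDerivAt_id r).prodMk (hasDerivAt_const r (y, ε))
  exact h1.comp_hasDerivAt r h2

theorem hd_y {f : ℝ × ℝ × ℝ → ℝ} (hf : ContDiffOn ℝ ∞ f U) {r y ε : ℝ} (hp : (r, y, ε) ∈ U) :
    HasDerivAt (fun y => f (r, y, ε)) (dy f (r, y, ε)) y := by
  have h1 : HasFDerivAt f (fderiv ℝ f (r, y, ε)) (r, y, ε) :=
    ((hf.contDiffAt (isOpen_U.mem_nhds hp)).differentiableAt (by simp)).hasFDerivAt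
  have h2 : HasDerivAt (fun y : ℝ => (r, y, ε)) (0, 1, 0) y :=
    (hasDerivAt_const y r).prodMk ((hasDerivAt_id y).prodMk (hasDerivAt_const y ε))
  exact h1.comp_hasDerivAt y h2

/-- functions vanishing off `[1/3, 3/2]` -/
def Sup (f : ℝ × ℝ × ℝ → ℝ) : Prop := ∀ p ∈ U, p.1 ∉ Icc (1 / 3 : ℝ) (3 / 2) → f p = 0

theorem sup_fd {f : ℝ × ℝ × ℝ → ℝ} (hf : Sup f) (p : ℝ × ℝ × ℝ) (hp : p ∈ U)
    (h : p.1 ∉ Icc (1 / 3 : ℝ) (3 / 2)) : fderiv ℝ f p = 0 := by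
  have hO : IsOpen (U ∩ {p : ℝ × ℝ × ℝ | p.1 ∉ Icc (1 / 3 : ℝ) (3 / 2)}) :=
    isOpen_U.inter (isClosed_Icc.preimage continuous_fst).isOpen_compl
  have : f =ᶠ[𝓝 p] fun _ => (0 : ℝ) := by
    filter_upwards [hO.mem_nhds ⟨hp, h⟩] with q hq
    exact hf q hq.1 hq.2
  rw [this.fderiv_eq]
  simp

theorem sup_dr {f : ℝ × ℝ × ℝ → ℝ} (hf : Sup f) : Sup (dr f) := by
  intro p hp h
  simp [dr, sup_fd hf p hp h]

theorem sup_dy {f : ℝ × ℝ × ℝ → ℝ} (hf : Sup f) : Sup (dy f) := by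
  intro p hp h
  simp [dy, sup_fd hf p hp h]

/-- `√(1 + ε² r²)` -/
noncomputable def nr (p : ℝ × ℝ × ℝ) : ℝ := √(1 + p.2.2 ^ 2 * p.1 ^ 2)

/-- `√(1 + ε² y²)` -/
noncomputable def ny (p : ℝ × ℝ × ℝ) : ℝ := √(1 + p.2.2 ^ 2 * p.2.1 ^ 2)

theorem nr_pos (p : ℝ × ℝ × ℝ) : 0 < nr p := Real.sqrt_pos.2 (by positivity)

theorem ny_pos (p : ℝ × ℝ × ℝ) : 0 < ny p := Real.sqrt_pos.2 (by positivity)

theorem nr_sq (p : ℝ × ℝ × ℝ) : nr p ^ 2 = 1 + p.2.2 ^ 2 * p.1 ^ 2 :=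
  Real.sq_sqrt (by positivity)

theorem ny_sq (p : ℝ × ℝ × ℝ) : ny p ^ 2 = 1 + p.2.2 ^ 2 * p.2.1 ^ 2 :=
  Real.sq_sqrt (by positivity)

theorem cd_nr : ContDiff ℝ ∞ nr := by
  unfold nr
  exact ContDiff.sqrt (by fun_prop) (fun p => by positivity)

theorem cd_ny : ContDiff ℝ ∞ ny := by
  unfold ny
  exact ContDiff.sqrt (by fun_prop) (fun p => by positivity)

/-- the phase, minus its value at the stationary point -/
noncomputable def Em (p : ℝ × ℝ × ℝ) : ℝ :=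
  ph p.2.2 p.2.1 - (p.2.1 * (p.1 / nr p) - p.1 ^ 2 / (nr p * (nr p + 1)))

theorem cd_Em : ContDiff ℝ ∞ Em := by
  unfold Em ph
  have h1 := cd_nr
  have h2 : ContDiff ℝ ∞ fun p : ℝ × ℝ × ℝ => √(1 + p.2.2 ^ 2 * p.2.1 ^ 2) := cd_ny
  refine ContDiff.sub (ContDiff.div (by fun_prop) (contDiff_const.add h2) ?_) (ContDiff.sub
    (ContDiff.mul (by fun_prop) (ContDiff.div (by fun_prop) h1 fun p => (nr_pos p).ne'))
    (ContDiff.div (by fun_prop) (h1.mul (h1.add contDiff_const)) ?_))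
  · intro p
    have := Real.sqrt_nonneg (1 + p.2.2 ^ 2 * p.2.1 ^ 2)
    positivity
  · intro p
    have := nr_pos p
    positivity

/-- `m = -E_y / E_r` -/
noncomputable def mm (p : ℝ × ℝ × ℝ) : ℝ :=
  nr p * (p.2.1 + p.1) / (ny p ^ 2 * (p.2.1 / ny p + p.1 / nr p))

theorem cd_mm : ContDiffOn ℝ ∞ mm U := by
  unfold mm
  have h1 := cd_nr
  have h2 := cd_ny
  refine ContDiffOn.div (ContDiff.contDiffOn (by fun_prop)) ?_ ?_
  · refine (h2.pow 2).contDiffOn.mul (ContDiffOn.add ?_ ?_)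
    · exact ContDiffOn.div (ContDiff.contDiffOn (by fun_prop)) h2.contDiffOn
        fun p _ => (ny_pos p).ne'
    · exact ContDiffOn.div (ContDiff.contDiffOn (by fun_prop)) h1.contDiffOn
        fun p _ => (nr_pos p).ne'
  · intro p hp
    have h3 := nr_pos p
    have h4 := ny_pos p
    have h5 := hp.1
    have h6 := hp.2
    positivity

theorem hd_sqrt (ε r : ℝ) :
    HasDerivAt (fun r => √(1 + ε ^ 2 * r ^ 2)) (ε ^ 2 * r / √(1 + ε ^ 2 * r ^ 2)) r := by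
  have h1 : HasDerivAt (fun r : ℝ => 1 + ε ^ 2 * r ^ 2) (ε ^ 2 * (2 * r)) r := by
    have := (((hasDerivAt_id r).pow 2).const_mul (ε ^ 2)).const_add 1
    simpa using this
  have h2 := h1.sqrt (by positivity)
  refine h2.congr_deriv ?_
  have : √(1 + ε ^ 2 * r ^ 2) ≠ 0 := (Real.sqrt_pos.2 (by positivity)).ne'
  field_simp

theorem hd_q (ε r : ℝ) :
    HasDerivAt (fun r => r / √(1 + ε ^ 2 * r ^ 2)) (1 / √(1 + ε ^ 2 * r ^ 2) ^ 3) r := by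
  have hN : 0 < √(1 + ε ^ 2 * r ^ 2) := Real.sqrt_pos.2 (by positivity)
  have hs : √(1 + ε ^ 2 * r ^ 2) ^ 2 = 1 + ε ^ 2 * r ^ 2 := Real.sq_sqrt (by positivity)
  refine ((hasDerivAt_id r).div (hd_sqrt ε r) hN.ne').congr_deriv ?_
  simp only [id]
  field_simp
  linear_combination hs

theorem hd_p (ε r : ℝ) :
    HasDerivAt (fun r => r ^ 2 / (√(1 + ε ^ 2 * r ^ 2) * (√(1 + ε ^ 2 * r ^ 2) + 1)))
      (r / √(1 + ε ^ 2 * r ^ 2) ^ 3) r := by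
  have hN : 0 < √(1 + ε ^ 2 * r ^ 2) := Real.sqrt_pos.2 (by positivity)
  have hs : √(1 + ε ^ 2 * r ^ 2) ^ 2 = 1 + ε ^ 2 * r ^ 2 := Real.sq_sqrt (by positivity)
  have h1 : HasDerivAt (fun r : ℝ => r ^ 2) (2 * r) r := by simpa using hasDerivAt_pow 2 r
  have h2 : HasDerivAt (fun r => √(1 + ε ^ 2 * r ^ 2) * (√(1 + ε ^ 2 * r ^ 2) + 1))
      (ε ^ 2 * r / √(1 + ε ^ 2 * r ^ 2) * (√(1 + ε ^ 2 * r ^ 2) + 1) +
        √(1 + ε ^ 2 * r ^ 2) * (ε ^ 2 * r / √(1 + ε ^ 2 * r ^ 2))) r :=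
    (hd_sqrt ε r).mul ((hd_sqrt ε r).add_const 1)
  refine (h1.div h2 (by positivity)).congr_deriv ?_
  generalize √(1 + ε ^ 2 * r ^ 2) = n at *
  field_simp
  linear_combination r * (2 * n + 1) * hs

theorem hd_ph (ε y : ℝ) : HasDerivAt (ph ε) (y / √(1 + ε ^ 2 * y ^ 2)) y := by
  have hN : 0 < √(1 + ε ^ 2 * y ^ 2) := Real.sqrt_pos.2 (by positivity)
  have hs : √(1 + ε ^ 2 * y ^ 2) ^ 2 = 1 + ε ^ 2 * y ^ 2 := Real.sq_sqrt (by positivity)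
  have h1 : HasDerivAt (fun r : ℝ => r ^ 2) (2 * y) y := by simpa using hasDerivAt_pow 2 y
  refine (h1.div ((hd_sqrt ε y).const_add 1) (by positivity)).congr_deriv ?_
  generalize √(1 + ε ^ 2 * y ^ 2) = n at *
  field_simp
  linear_combination y * hs

theorem hd_Er (r y ε : ℝ) :
    HasDerivAt (fun r => Em (r, y, ε)) ((r - y) / nr (r, y, ε) ^ 3) r := by
  have h1 := (((hd_q ε r).const_mul y).sub (hd_p ε r)).const_sub (ph ε y)
  refine h1.congr_deriv ?_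
  have := nr_pos (r, y, ε)
  simp only [nr] at this ⊢
  field_simp
  ring

theorem hd_Ey {r y ε : ℝ} (hp : (r, y, ε) ∈ U) :
    HasDerivAt (fun y => Em (r, y, ε))
      (-(mm (r, y, ε) * ((r - y) / nr (r, y, ε) ^ 3))) y := by
  have h1 := (hd_ph ε y).sub (((hasDerivAt_id y).mul_const (r / nr (r, y, ε))).sub
    (hasDerivAt_const y (r ^ 2 / (nr (r, y, ε) * (nr (r, y, ε) + 1)))))
  have h2 : HasDerivAt (fun y => Em (r, y, ε))
      (y / √(1 + ε ^ 2 * y ^ 2) - (1 * (r / nr (r, y, ε)) - 0)) y := h1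
  refine h2.congr_deriv ?_
  have h3 := nr_pos (r, y, ε)
  have h4 := ny_pos (r, y, ε)
  have h5 := nr_sq (r, y, ε)
  have h6 := ny_sq (r, y, ε)
  have h7 : 0 < r := hp.1
  have h8 : 0 < y := hp.2
  have h9 : √(1 + ε ^ 2 * y ^ 2) = ny (r, y, ε) := rfl
  simp only [mm]
  rw [h9]
  simp only at h5 h6
  generalize nr (r, y, ε) = n at *
  generalize ny (r, y, ε) = k at *
  field_simp
  linear_combination y ^ 2 * h5 - r ^ 2 * h6

/-- the new amplitude -/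
noncomputable def Dm (f : ℝ × ℝ × ℝ → ℝ) (p : ℝ × ℝ × ℝ) : ℝ := dy f p + dr (fun p => f p * mm p) p

theorem cd_Dm {f : ℝ × ℝ × ℝ → ℝ} (hf : ContDiffOn ℝ ∞ f U) : ContDiffOn ℝ ∞ (Dm f) U :=
  (cd_dy hf).add (cd_dr (hf.mul cd_mm))

theorem sup_Dm {f : ℝ × ℝ × ℝ → ℝ} (hf : Sup f) : Sup (Dm f) := by
  intro p hp h
  have h1 : Sup fun p => f p * mm p := by
    intro q hq h'
    simp only [hf q hq h', zero_mul]
  simp only [Dm, sup_dy hf p hp h, sup_dr h1 p hp h, add_zero]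

/-- the oscillatory integral -/
noncomputable def J (f : ℝ × ℝ × ℝ → ℝ) (ε t y : ℝ) : ℂ :=
  ∫ r in (1 / 4 : ℝ)..2, (f (r, y, ε) : ℂ) * cexp (-(I * ((t * Em (r, y, ε) : ℝ) : ℂ)))

end Pool.Agent.TH367.MV
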