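import Mathlib
import Pool.Agent.TH407.MV.Defs
import Pool.Agent.TH367.MV.StatB
set_option autoImplicit false

namespace Pool.Agent.TH367.MV

open MeasureTheory Set Complex Pool.Agent.TH407.MV
open scoped ENNReal NNReal Real ComplexConjugate ContDiff Topology

/-- the exponential -/
noncomputable def ex (t : ℝ) (p : ℝ × ℝ × ℝ) : ℂ := cexp (-(I * ((t * Em p : ℝ) : ℂ)))

theorem norm_ex (t : ℝ) (p : ℝ × ℝ × ℝ) : ‖ex t p‖ = 1 := by
  have : -(I * ((t * Em p : ℝ) : ℂ)) = ((-(t * Em p) : ℝ) : ℂ) * I := by push_cast; ring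
  rw [ex, this]
  exact Complex.norm_exp_ofReal_mul_I _

theorem cont_ex (t : ℝ) : Continuous (ex t) := by
  unfold ex
  have := cd_Em.continuous
  fun_prop

theorem hasDerivAt_J {f : ℝ × ℝ × ℝ → ℝ} (hf : ContDiffOn ℝ ∞ f U) (hs : Sup f) (ε t : ℝ) {y : ℝ}
    (hy : 0 < y) : HasDerivAt (fun y => J f ε t y) (J (Dm f) ε t y) y := by
  have h14 : (1 / 4 : ℝ) ≤ 2 := by norm_num
  -- derivative of the integrand
  set F : ℝ → ℝ → ℂ := fun y r => (f (r, y, ε) : ℂ) * ex t (r, y, ε) with hF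
  set F' : ℝ → ℝ → ℂ := fun y r => (dy f (r, y, ε) : ℂ) * ex t (r, y, ε) +
    (f (r, y, ε) : ℂ) * (ex t (r, y, ε) *
      (I * ((t * (mm (r, y, ε) * ((r - y) / nr (r, y, ε) ^ 3)) : ℝ) : ℂ))) with hF'
  have hd : ∀ y r : ℝ, (r, y, ε) ∈ U → HasDerivAt (fun y => F y r) (F' y r) y := by
    intro y r hp
    have h1 := (hd_y hf hp).ofReal_comp
    have h2 := ((((hd_Ey hp).const_mul t).ofReal_comp.const_mul I).neg).cexp
    have h3 : HasDerivAt (fun y => F y r) _ y := h1.mul h2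
    refine h3.congr_deriv ?_
    simp only [hF', ex, Pi.neg_apply]
    push_cast
    ring
  -- continuity
  have cU : ∀ g : ℝ × ℝ × ℝ → ℝ, ContDiffOn ℝ ∞ g U → ContinuousOn (fun p => (g p : ℂ)) U :=
    fun g hg => Complex.continuous_ofReal.comp_continuousOn hg.continuousOn
  have cG : ContinuousOn (fun p : ℝ × ℝ × ℝ => (dy f p : ℂ) * ex t p +
      (f p : ℂ) * (ex t p * (I * ((t * (mm p * ((p.1 - p.2.1) / nr p ^ 3)) : ℝ) : ℂ)))) U := by
    refine ((cU _ (cd_dy hf)).mul (cont_ex t).continuousOn).add ((cU _ hf).mul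
      ((cont_ex t).continuousOn.mul (continuousOn_const.mul ?_)))
    refine Complex.continuous_ofReal.comp_continuousOn (continuousOn_const.mul
      (cd_mm.continuousOn.mul (Continuous.continuousOn ?_)))
    have h1 := cd_nr.continuous
    exact Continuous.div (by fun_prop) (by fun_prop) fun p => (pow_pos (nr_pos p) 3).ne'
  have hmap : ∀ y : ℝ, 0 < y → MapsTo (fun r : ℝ => (r, y, ε)) (Icc (1 / 4 : ℝ) 2) U := by
    intro y hy r hr
    exact ⟨by have := hr.1; simp only; linarith, hy⟩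
  have hline : ∀ y : ℝ, Continuous (fun r : ℝ => (r, y, ε)) := fun y => by fun_prop
  have cF : ∀ y : ℝ, 0 < y → ContinuousOn (F y) (Icc (1 / 4 : ℝ) 2) := by
    intro y hy
    exact ((cU _ hf).mul (cont_ex t).continuousOn).comp (hline y).continuousOn (hmap y hy)
  have cF' : ∀ y : ℝ, 0 < y → ContinuousOn (F' y) (Icc (1 / 4 : ℝ) 2) := by
    intro y hy
    exact cG.comp (hline y).continuousOn (hmap y hy)
  have hu : uIcc (1 / 4 : ℝ) 2 = Icc (1 / 4) 2 := uIcc_of_le h14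
  have huo : uIoc (1 / 4 : ℝ) 2 = Ioc (1 / 4) 2 := uIoc_of_le h14
  -- bound
  obtain ⟨B, hB⟩ : ∃ B : ℝ, ∀ y' ∈ Icc (y / 2) (2 * y), ∀ r ∈ Icc (1 / 4 : ℝ) 2, ‖F' y' r‖ ≤ B := by
    have hc : IsCompact (Icc (1 / 4 : ℝ) 2 ×ˢ (Icc (y / 2) (2 * y) ×ˢ ({ε} : Set ℝ))) :=
      isCompact_Icc.prod (isCompact_Icc.prod isCompact_singleton)
    have hsub : Icc (1 / 4 : ℝ) 2 ×ˢ (Icc (y / 2) (2 * y) ×ˢ ({ε} : Set ℝ)) ⊆ U := by
      rintro ⟨r, y', e'⟩ ⟨h1, h2, -⟩
      exact ⟨by have := h1.1; simp only at this ⊢; linarith,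
        by have := h2.1; simp only at this ⊢; linarith⟩
    obtain ⟨B, hB⟩ := hc.exists_bound_of_continuousOn (cG.mono hsub)
    exact ⟨B, fun y' hy' r hr => hB (r, y', ε) ⟨hr, hy', rfl⟩⟩
  have hmain := intervalIntegral.hasDerivAt_integral_of_dominated_loc_of_deriv_le
    (μ := volume) (a := 1 / 4) (b := 2) (F := F) (F' := F') (x₀ := y) (s := Icc (y / 2) (2 * y))
    (bound := fun _ => B)
    (Icc_mem_nhds (by linarith) (by linarith))
    (by
      filter_upwards [Ioi_mem_nhds hy] with y' hy'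
      rw [huo]
      exact ((cF y' hy').mono Ioc_subset_Icc_self).aestronglyMeasurable measurableSet_Ioc)
    (by
      apply ContinuousOn.intervalIntegrable
      rw [hu]
      exact cF y hy)
    (by
      rw [huo]
      exact ((cF' y hy).mono Ioc_subset_Icc_self).aestronglyMeasurable measurableSet_Ioc)
    (by
      filter_upwards with r hr y' hy'
      rw [huo] at hr
      exact hB y' hy' r ⟨hr.1.le, hr.2⟩)
    (by simp)
    (by
      filter_upwards with r hr y' hy'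
      rw [huo] at hr
      exact hd y' r ⟨by have := hr.1; simp only; linarith, by have := hy'.1; simp only; linarith⟩)
  have h2 : HasDerivAt (fun y => J f ε t y) (∫ r in (1 / 4 : ℝ)..2, F' y r) y := hmain.2
  refine h2.congr_deriv ?_
  -- integration by parts in the radius
  have hfm : ContDiffOn ℝ ∞ (fun p => f p * mm p) U := hf.mul cd_mm
  have hP : ∀ r ∈ Icc (1 / 4 : ℝ) 2, HasDerivAt
      (fun r => ((f (r, y, ε) * mm (r, y, ε) : ℝ) : ℂ) * ex t (r, y, ε))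
      ((Dm f (r, y, ε) : ℂ) * ex t (r, y, ε) - F' y r) r := by
    intro r hr
    have hp := hmap y hy hr
    have h1 := (hd_r hfm hp).ofReal_comp
    have h2 := ((((hd_Er r y ε).const_mul t).ofReal_comp.const_mul I).neg).cexp
    have h3 : HasDerivAt (fun r => ((f (r, y, ε) * mm (r, y, ε) : ℝ) : ℂ) * ex t (r, y, ε)) _ r :=
      h1.mul h2
    refine h3.congr_deriv ?_
    simp only [hF', Dm, ex, Pi.neg_apply]
    push_cast
    ring
  have cD : ContinuousOn (fun r => (Dm f (r, y, ε) : ℂ) * ex t (r, y, ε)) (Icc (1 / 4 : ℝ) 2) :=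
    ((cU _ (cd_Dm hf)).mul (cont_ex t).continuousOn).comp (hline y).continuousOn (hmap y hy)
  have i1 : IntervalIntegrable (fun r => (Dm f (r, y, ε) : ℂ) * ex t (r, y, ε)) volume (1 / 4) 2 :=
    (hu ▸ cD : ContinuousOn _ (uIcc (1 / 4 : ℝ) 2)).intervalIntegrable
  have i2 : IntervalIntegrable (F' y) volume (1 / 4) 2 :=
    (hu ▸ cF' y hy : ContinuousOn _ (uIcc (1 / 4 : ℝ) 2)).intervalIntegrable
  have key := intervalIntegral.integral_eq_sub_of_hasDerivAt (a := 1 / 4) (b := 2)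
    (fun r hr => hP r (hu ▸ hr)) (i1.sub i2)
  have e1 : f (1 / 4, y, ε) = 0 := hs _ (hmap y hy ⟨le_rfl, h14⟩) (by
    intro h; have := h.1; norm_num at this)
  have e2 : f (2, y, ε) = 0 := hs _ (hmap y hy ⟨h14, le_rfl⟩) (by
    intro h; have := h.2; norm_num at this)
  rw [intervalIntegral.integral_sub i1 i2, e1, e2] at key
  have : J (Dm f) ε t y = ∫ r in (1 / 4 : ℝ)..2, (Dm f (r, y, ε) : ℂ) * ex t (r, y, ε) := rfl
  rw [this]
  simp only [zero_mul, Complex.ofReal_zero, sub_self] at key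
  exact (sub_eq_zero.1 key).symm

/-- the compact set of parameters -/
def K (A0 : ℝ) : Set (ℝ × ℝ × ℝ) := Icc (1 / 4 : ℝ) 2 ×ˢ (Icc (1 / 16 : ℝ) 8 ×ˢ Icc (0 : ℝ) A0)

theorem K_sub (A0 : ℝ) : K A0 ⊆ U := by
  rintro ⟨r, y, e⟩ ⟨h1, h2, -⟩
  exact ⟨by have := h1.1; simp only at this ⊢; linarith,
    by have := h2.1; simp only at this ⊢; linarith⟩

theorem K_bd {f : ℝ × ℝ × ℝ → ℝ} (hf : ContDiffOn ℝ ∞ f U) (A0 : ℝ) :
    ∃ C : ℝ, 0 ≤ C ∧ ∀ p ∈ K A0, |f p| ≤ C := by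
  have hc : IsCompact (K A0) := isCompact_Icc.prod (isCompact_Icc.prod isCompact_Icc)
  obtain ⟨C, hC⟩ := hc.exists_bound_of_continuousOn (hf.continuousOn.mono (K_sub A0))
  exact ⟨max C 0, le_max_right _ _, fun p hp => (hC p hp).trans (le_max_left _ _)⟩

theorem J_bound {f : ℝ × ℝ × ℝ → ℝ} (hf : ContDiffOn ℝ ∞ f U) (hs : Sup f) (A0 : ℝ) :
    ∃ C : ℝ, 0 ≤ C ∧ ∀ ε t y : ℝ, 0 ≤ ε → ε ≤ A0 → 0 < t → y ∈ Icc (1 / 16 : ℝ) 8 →
      ‖J f ε t y‖ ≤ C / √t := by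
  have h14 : (1 / 4 : ℝ) ≤ 2 := by norm_num
  have hk : ContDiffOn ℝ ∞ (fun p => nr p ^ 3) U := (cd_nr.pow 3).contDiffOn
  obtain ⟨M1, h1, H1⟩ := K_bd hf A0
  obtain ⟨M2, h2, H2⟩ := K_bd (cd_dr hf) A0
  obtain ⟨M3, h3, H3⟩ := K_bd hk A0
  obtain ⟨M4, h4, H4⟩ := K_bd (cd_dr hk) A0
  set M := M1 + M2 + M3 + M4 + 8 with hM
  have hM0 : 0 ≤ M := by positivity
  refine ⟨2 * ((M + 1 + M ^ 2) * M + M ^ 3 + 4 * M ^ 2) * π, by positivity, ?_⟩
  intro ε t y he hA ht hy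
  have hmem : ∀ r ∈ Icc (1 / 4 : ℝ) 2, (r, y, ε) ∈ K A0 := fun r hr => ⟨hr, hy, he, hA⟩
  have hmap : MapsTo (fun r : ℝ => (r, y, ε)) (Icc (1 / 4 : ℝ) 2) U := fun r hr =>
    K_sub A0 (hmem r hr)
  have hline : Continuous (fun r : ℝ => (r, y, ε)) := by fun_prop
  have := L1 (1 / 4) 2 y t M h14 ht hM0 (fun r => Em (r, y, ε)) (fun r => nr (r, y, ε) ^ 3)
    (fun r => dr (fun p => nr p ^ 3) (r, y, ε)) (fun r => f (r, y, ε)) (fun r => dr f (r, y, ε))
    (fun r _ => hd_Er r y ε)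
    (fun r hr => hd_r hk (hmap hr))
    (fun r _ => (pow_pos (nr_pos _) 3).ne')
    (fun r hr => (H3 _ (hmem r hr)).trans (by linarith))
    (fun r hr => (H4 _ (hmem r hr)).trans (by linarith))
    ((cd_dr hk).continuousOn.comp hline.continuousOn hmap)
    (fun r hr => hd_r hf (hmap hr))
    (fun r hr => (H1 _ (hmem r hr)).trans (by linarith))
    (fun r hr => (H2 _ (hmem r hr)).trans (by linarith))
    ((cd_dr hf).continuousOn.comp hline.continuousOn hmap)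
    (fun r hr => by
      rw [abs_le]
      exact ⟨by linarith [hr.1, hy.2], by linarith [hr.2, hy.1]⟩)
    (hs _ (hmap ⟨le_rfl, h14⟩) (by intro h; have := h.1; norm_num at this))
    (hs _ (hmap ⟨h14, le_rfl⟩) (by intro h; have := h.2; norm_num at this))
  rw [mul_div_assoc]
  exact this

end Pool.Agent.TH367.MV
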