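import Mathlib
import Pool.Agent.TH407.MV.Defs
import Pool.Agent.TH367.MV.StatC
set_option autoImplicit false

namespace Pool.Agent.TH367.MV

open MeasureTheory Set Complex Pool.Agent.TH407.MV
open scoped ENNReal NNReal Real ComplexConjugate ContDiff Topology

/-- two integrations by parts -/
theorem T1 (a b y t M s : ℝ) (hab : a ≤ b) (ht : 0 < t) (hM : 0 ≤ M) (hs : 1 / 9 ≤ s)
    (E k G G1 K0 K1 : ℝ → ℝ)
    (hE : ∀ r ∈ Icc a b, HasDerivAt E ((r - y) / k r) r)
    (hk0 : ∀ r ∈ Icc a b, k r ≠ 0) (hkc : ContinuousOn k (Icc a b))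
    (hG : ∀ r ∈ Icc a b, HasDerivAt G (G1 r) r)
    (hK0 : ∀ r ∈ Icc a b, HasDerivAt (fun r => k r * G r) (K0 r) r)
    (hK1 : ∀ r ∈ Icc a b, HasDerivAt (fun r => k r * G1 r) (K1 r) r)
    (cK0 : ContinuousOn K0 (Icc a b)) (cK1 : ContinuousOn K1 (Icc a b))
    (cG1 : ContinuousOn G1 (Icc a b))
    (b1 : ∀ r ∈ Icc a b, |k r * G r| ≤ M) (b2 : ∀ r ∈ Icc a b, |k r * G1 r| ≤ M)
    (b3 : ∀ r ∈ Icc a b, |K0 r| ≤ M) (b4 : ∀ r ∈ Icc a b, |K1 r| ≤ M)
    (hy : ∀ r ∈ Icc a b, s ≤ |r - y|)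
    (Ga : G a = 0) (Gb : G b = 0) (G1a : G1 a = 0) (G1b : G1 b = 0) :
    ‖∫ r in a..b, ((G r / k r : ℝ) : ℂ) * cexp (-(I * ((t * E r : ℝ) : ℂ)))‖ ≤
      271 * M / s ^ 2 * (b - a) / t ^ 2 := by
  have hu : uIcc a b = Icc a b := uIcc_of_le hab
  have hs0 : 0 < s := by linarith
  set e : ℝ → ℂ := fun r => cexp (-(I * ((t * E r : ℝ) : ℂ))) with he
  have hen : ∀ r, ‖e r‖ = 1 := by
    intro r
    rw [he]
    have : -(I * ((t * E r : ℝ) : ℂ)) = ((-(t * E r) : ℝ) : ℂ) * I := by push_cast; ring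
    simp only [this]
    exact Complex.norm_exp_ofReal_mul_I _
  have hed : ∀ r ∈ Icc a b, HasDerivAt e (e r * (-(I * ((t * ((r - y) / k r) : ℝ) : ℂ)))) r := by
    intro r hr
    have h1 := ((hE r hr).const_mul t).ofReal_comp
    have h2 := ((h1.const_mul I).neg).cexp
    exact h2
  have hx0 : ∀ r ∈ Icc a b, r - y ≠ 0 := by
    intro r hr h
    have := hy r hr
    rw [h, abs_zero] at this
    linarith
  set Q : ℝ → ℝ := fun r => G1 r / (r - y) - G r / (r - y) ^ 2 with hQ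
  set R : ℝ → ℝ := fun r => K1 r / (r - y) ^ 2 - 2 * (k r * G1 r) / (r - y) ^ 3 -
    K0 r / (r - y) ^ 3 + 3 * (k r * G r) / (r - y) ^ 4 with hR
  have hxd : ∀ r : ℝ, HasDerivAt (fun r : ℝ => r - y) 1 r := fun r => (hasDerivAt_id r).sub_const y
  have hx2d : ∀ r : ℝ, HasDerivAt (fun r : ℝ => (r - y) ^ 2) (2 * (r - y)) r := by
    intro r
    refine ((hxd r).pow 2).congr_deriv ?_
    norm_num
  have hx3d : ∀ r : ℝ, HasDerivAt (fun r : ℝ => (r - y) ^ 3) (3 * (r - y) ^ 2) r := by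
    intro r
    refine ((hxd r).pow 3).congr_deriv ?_
    norm_num
  have hP1 : ∀ r ∈ Icc a b, HasDerivAt (fun r => ((G r / (r - y) : ℝ) : ℂ) * e r)
      ((Q r : ℂ) * e r - I * t * (((G r / k r : ℝ) : ℂ) * e r)) r := by
    intro r hr
    have h0 : HasDerivAt (fun r => G r / (r - y)) _ r := (hG r hr).div (hxd r) (hx0 r hr)
    have h1 := h0.ofReal_comp
    have h2 : HasDerivAt (fun r => ((G r / (r - y) : ℝ) : ℂ) * e r) _ r := h1.mul (hed r hr)
    refine h2.congr_deriv ?_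
    have h3 : (k r : ℂ) ≠ 0 := by exact_mod_cast hk0 r hr
    have h4 : ((r : ℂ) - y) ≠ 0 := by exact_mod_cast hx0 r hr
    simp only [hQ]
    push_cast
    field_simp
    ring
  have hP2 : ∀ r ∈ Icc a b, HasDerivAt (fun r => ((k r * G1 r / (r - y) ^ 2 -
      k r * G r / (r - y) ^ 3 : ℝ) : ℂ) * e r)
      ((R r : ℂ) * e r - I * t * ((Q r : ℂ) * e r)) r := by
    intro r hr
    have h0 : HasDerivAt (fun r => k r * G1 r / (r - y) ^ 2 - k r * G r / (r - y) ^ 3) _ r :=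
      ((hK1 r hr).div (hx2d r) (pow_ne_zero 2 (hx0 r hr))).sub
      ((hK0 r hr).div (hx3d r) (pow_ne_zero 3 (hx0 r hr)))
    have h1 := h0.ofReal_comp
    have h2 : HasDerivAt (fun r => ((k r * G1 r / (r - y) ^ 2 -
      k r * G r / (r - y) ^ 3 : ℝ) : ℂ) * e r) _ r := h1.mul (hed r hr)
    refine h2.congr_deriv ?_
    have h3 : (k r : ℂ) ≠ 0 := by exact_mod_cast hk0 r hr
    have h4 : ((r : ℂ) - y) ≠ 0 := by exact_mod_cast hx0 r hr
    simp only [hQ, hR]
    push_cast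
    field_simp
    ring
  have hec : ContinuousOn e (Icc a b) := fun r hr => (hed r hr).continuousAt.continuousWithinAt
  have hGc : ContinuousOn G (Icc a b) := fun r hr => (hG r hr).continuousAt.continuousWithinAt
  have cx : ∀ n : ℕ, ContinuousOn (fun r : ℝ => (r - y) ^ n) (Icc a b) := fun n =>
    Continuous.continuousOn (by fun_prop)
  have nx : ∀ n : ℕ, ∀ r ∈ Icc a b, (r - y) ^ n ≠ 0 := fun n r hr => pow_ne_zero n (hx0 r hr)
  have cQ : ContinuousOn Q (Icc a b) := by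
    refine (cG1.div ?_ hx0).sub (hGc.div (cx 2) (nx 2))
    exact Continuous.continuousOn (by fun_prop)
  have cR : ContinuousOn R (Icc a b) := by
    refine (((cK1.div (cx 2) (nx 2)).sub ?_).sub (cK0.div (cx 3) (nx 3))).add ?_
    · exact (continuousOn_const.mul (hkc.mul cG1)).div (cx 3) (nx 3)
    · exact (continuousOn_const.mul (hkc.mul hGc)).div (cx 4) (nx 4)
  have ii : ∀ f : ℝ → ℝ, ContinuousOn f (Icc a b) →
      IntervalIntegrable (fun r => (f r : ℂ) * e r) volume a b := by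
    intro f hf
    apply ContinuousOn.intervalIntegrable
    rw [hu]
    exact (Complex.continuous_ofReal.comp_continuousOn hf).mul hec
  have i0 := ii (fun r => G r / k r) (hGc.div hkc hk0)
  have i1 := ii Q cQ
  have i2 := ii R cR
  have k1 := intervalIntegral.integral_eq_sub_of_hasDerivAt
    (fun r hr => hP1 r (hu ▸ hr)) (i1.sub (i0.const_mul (I * t)))
  have k2 := intervalIntegral.integral_eq_sub_of_hasDerivAt
    (fun r hr => hP2 r (hu ▸ hr)) (i2.sub (i1.const_mul (I * t)))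
  rw [intervalIntegral.integral_sub i1 (i0.const_mul (I * t)),
    intervalIntegral.integral_const_mul, Ga, Gb] at k1
  rw [intervalIntegral.integral_sub i2 (i1.const_mul (I * t)),
    intervalIntegral.integral_const_mul, Ga, Gb, G1a, G1b] at k2
  have ht0 : (t : ℂ) ≠ 0 := by exact_mod_cast ht.ne'
  have k3 : ∫ r in a..b, ((G r / k r : ℝ) : ℂ) * e r = -(∫ r in a..b, (R r : ℂ) * e r) / t ^ 2 := by
    rw [eq_div_iff (pow_ne_zero 2 ht0)]
    simp only [zero_div, mul_zero, sub_self, Complex.ofReal_zero, zero_mul] at k1 k2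
    have hI := Complex.I_sq
    linear_combination (I * t) * k1 + k2 + t ^ 2 * (∫ r in a..b, ((G r / k r : ℝ) : ℂ) * e r) * hI
  have hRb : ∀ r ∈ Icc a b, ‖(R r : ℂ) * e r‖ ≤ 271 * M / s ^ 2 := by
    intro r hr
    rw [norm_mul, hen r, mul_one, Complex.norm_real, Real.norm_eq_abs]
    have hx := hy r hr
    have p2 : ∀ (n : ℕ) (c : ℝ), 0 ≤ c → c / |r - y| ^ n ≤ c / s ^ n := by
      intro n c hc
      exact div_le_div_of_nonneg_left hc (pow_pos hs0 n) (pow_le_pow_left₀ hs0.le hx n)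
    have q1 : |K1 r / (r - y) ^ 2| ≤ M / s ^ 2 := by
      rw [abs_div, abs_pow]
      exact (div_le_div_of_nonneg_right (b4 r hr) (by positivity)).trans (p2 2 M hM)
    have q2 : |2 * (k r * G1 r) / (r - y) ^ 3| ≤ 2 * M / s ^ 3 := by
      rw [abs_div, abs_pow, abs_mul, abs_of_pos (by norm_num : (0 : ℝ) < 2)]
      exact (div_le_div_of_nonneg_right (by linarith [b2 r hr]) (by positivity)).trans
        (p2 3 _ (by positivity))
    have q3 : |K0 r / (r - y) ^ 3| ≤ M / s ^ 3 := by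
      rw [abs_div, abs_pow]
      exact (div_le_div_of_nonneg_right (b3 r hr) (by positivity)).trans (p2 3 M hM)
    have q4 : |3 * (k r * G r) / (r - y) ^ 4| ≤ 3 * M / s ^ 4 := by
      rw [abs_div, abs_pow, abs_mul, abs_of_pos (by norm_num : (0 : ℝ) < 3)]
      exact (div_le_div_of_nonneg_right (by linarith [b1 r hr]) (by positivity)).trans
        (p2 4 _ (by positivity))
    have q5 : |R r| ≤ M / s ^ 2 + 2 * M / s ^ 3 + M / s ^ 3 + 3 * M / s ^ 4 := by
      simp only [hR]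
      refine (abs_add_le _ _).trans (add_le_add ((abs_sub _ _).trans (add_le_add
        ((abs_sub _ _).trans (add_le_add q1 q2)) q3)) q4)
    refine q5.trans ?_
    have h9 : 1 / s ≤ 9 := by
      rw [div_le_iff₀ hs0]; linarith
    have e1 : M / s ^ 2 + 2 * M / s ^ 3 + M / s ^ 3 + 3 * M / s ^ 4 =
        M / s ^ 2 * (1 + 3 * (1 / s) + 3 * (1 / s) ^ 2) := by
      field_simp
      ring
    rw [e1]
    have h10 : (1 / s) ^ 2 ≤ 9 ^ 2 := pow_le_pow_left₀ (by positivity) h9 2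
    have h11 : 0 ≤ M / s ^ 2 := by positivity
    calc M / s ^ 2 * (1 + 3 * (1 / s) + 3 * (1 / s) ^ 2) ≤ M / s ^ 2 * 271 := by
          apply mul_le_mul_of_nonneg_left _ h11
          linarith
      _ = 271 * M / s ^ 2 := by ring
  rw [k3, norm_div, norm_neg, norm_pow, Complex.norm_real, Real.norm_eq_abs, abs_of_pos ht]
  refine div_le_div_of_nonneg_right ?_ (by positivity)
  have := intervalIntegral.norm_integral_le_of_norm_le_const (a := a) (b := b)
    (f := fun r => (R r : ℂ) * e r) (C := 271 * M / s ^ 2) (by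
      intro r hr
      rw [uIoc_of_le hab] at hr
      exact hRb r ⟨hr.1.le, hr.2⟩)
  rwa [abs_of_nonneg (sub_nonneg.2 hab)] at this

/-- the amplitude -/
noncomputable def h0 (p : ℝ × ℝ × ℝ) : ℝ := p.1 * TH407.MV.eta (p.1 ^ 2) / (1 + p.2.2 ^ 2 * p.1 ^ 2) ^ 2

theorem cd_eta : ContDiff ℝ ∞ TH407.MV.eta := by
  unfold TH407.MV.eta
  exact (Real.smoothTransition.contDiff.comp (by fun_prop)).mul
    (Real.smoothTransition.contDiff.comp (by fun_prop))

theorem eta_zero {r : ℝ} (hr : 0 < r) (h : r ∉ Icc (1 / 3 : ℝ) (3 / 2)) : TH407.MV.eta (r ^ 2) = 0 := by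
  unfold TH407.MV.eta
  rw [mem_Icc, not_and_or, not_le, not_le] at h
  rcases h with h | h
  · rw [Real.smoothTransition.zero_of_nonpos (by nlinarith), zero_mul]
  · rw [Real.smoothTransition.zero_of_nonpos (x := 2 - r ^ 2) (by nlinarith), mul_zero]

theorem cd_h0 : ContDiff ℝ ∞ h0 := by
  unfold h0
  have := cd_eta
  exact ContDiff.div (by fun_prop) (by fun_prop) fun p => by positivity

theorem sup_h0 : Sup h0 := by
  intro p hp h
  simp [h0, eta_zero hp.1 h]

theorem KG_eq (ε t y : ℝ) :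
    KG ε t (-(t * y)) = cexp (I * ((t * ph ε y : ℝ) : ℂ)) * J h0 ε t y := by
  have h14 : (1 / 4 : ℝ) ≤ 2 := by norm_num
  unfold KG J
  rw [← intervalIntegral.integral_const_mul, intervalIntegral.integral_of_le h14]
  have hsub : Ioc (1 / 4 : ℝ) 2 ⊆ Ioi 0 := fun r hr => by
    have := hr.1
    simp only [mem_Ioi]; linarith
  rw [setIntegral_eq_of_subset_of_forall_sdiff_eq_zero measurableSet_Ioi hsub (f := fun r : ℝ =>
    ((r * TH407.MV.eta (r ^ 2) / (1 + ε ^ 2 * r ^ 2) ^ 2 : ℝ) : ℂ) *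
    cexp (-(I * ((r * (-(t * y)) / √(1 + ε ^ 2 * r ^ 2) +
      r ^ 2 / (√(1 + ε ^ 2 * r ^ 2) * (√(1 + ε ^ 2 * r ^ 2) + 1)) * t : ℝ) : ℂ))))]
  · apply setIntegral_congr_fun measurableSet_Ioc
    intro r hr
    simp only
    have e1 : h0 (r, y, ε) = r * TH407.MV.eta (r ^ 2) / (1 + ε ^ 2 * r ^ 2) ^ 2 := rfl
    rw [e1, mul_left_comm, ← Complex.exp_add]
    congr 2
    have e2 : Em (r, y, ε) = ph ε y - (y * (r / √(1 + ε ^ 2 * r ^ 2)) -
      r ^ 2 / (√(1 + ε ^ 2 * r ^ 2) * (√(1 + ε ^ 2 * r ^ 2) + 1))) := rfl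
    rw [e2]
    push_cast
    ring
  · intro r hr
    have h1 : 0 < r := hr.1
    have h2 : r ∉ Icc (1 / 3 : ℝ) (3 / 2) := by
      intro h
      exact hr.2 ⟨by linarith [h.1], by linarith [h.2]⟩
    rw [eta_zero h1 h2]
    simp

end Pool.Agent.TH367.MV
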