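import Mathlib
import Pool.Agent.TH407.MV.Defs
import Pool.Agent.TH367.MV.StatD
set_option autoImplicit false

namespace Pool.Agent.TH367.MV

open MeasureTheory Set Complex Pool.Agent.TH407.MV
open scoped ENNReal NNReal Real ComplexConjugate ContDiff Topology

theorem tail (A0 : ℝ) : ∃ C : ℝ, 0 ≤ C ∧ ∀ ε t y : ℝ, 0 ≤ ε → ε ≤ A0 → 0 < t →
    y ∉ Icc (1 / 8 : ℝ) 4 → ‖J h0 ε t y‖ ≤ C / (t ^ 2 * (1 + |y|) ^ 2) := by
  have h14 : (1 / 4 : ℝ) ≤ 2 := by norm_num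
  have hk : ContDiffOn ℝ ∞ (fun p => nr p ^ 3) U := (cd_nr.pow 3).contDiffOn
  have hG : ContDiffOn ℝ ∞ (fun p => h0 p * nr p ^ 3) U := (cd_h0.contDiffOn).mul hk
  have sG : Sup (fun p => h0 p * nr p ^ 3) := by
    intro p hp h
    simp only [sup_h0 p hp h, zero_mul]
  have hKG : ContDiffOn ℝ ∞ (fun p => nr p ^ 3 * (h0 p * nr p ^ 3)) U := hk.mul hG
  have hKG1 : ContDiffOn ℝ ∞ (fun p => nr p ^ 3 * dr (fun p => h0 p * nr p ^ 3) p) U :=
    hk.mul (cd_dr hG)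
  obtain ⟨M1, h1, H1⟩ := K_bd hKG A0
  obtain ⟨M2, h2, H2⟩ := K_bd hKG1 A0
  obtain ⟨M3, h3, H3⟩ := K_bd (cd_dr hKG) A0
  obtain ⟨M4, h4, H4⟩ := K_bd (cd_dr hKG1) A0
  set M := M1 + M2 + M3 + M4 with hM
  have hM0 : 0 ≤ M := by positivity
  refine ⟨271 * M * 81 * 2, by positivity, ?_⟩
  intro ε t y he hA ht hy
  have hmem : ∀ r ∈ Icc (1 / 4 : ℝ) 2, (r, (1 : ℝ), ε) ∈ K A0 := fun r hr =>
    ⟨hr, ⟨by norm_num, by norm_num⟩, he, hA⟩
  have hmap : MapsTo (fun r : ℝ => (r, (1 : ℝ), ε)) (Icc (1 / 4 : ℝ) 2) U := fun r hr =>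
    K_sub A0 (hmem r hr)
  have hline : Continuous (fun r : ℝ => (r, (1 : ℝ), ε)) := by fun_prop
  have n1 : (1 / 4 : ℝ) ∉ Icc (1 / 3 : ℝ) (3 / 2) := by intro h; have := h.1; norm_num at this
  have n2 : (2 : ℝ) ∉ Icc (1 / 3 : ℝ) (3 / 2) := by intro h; have := h.2; norm_num at this
  have hs : ∀ r ∈ Icc (1 / 4 : ℝ) 2, (1 + |y|) / 9 ≤ |r - y| := by
    intro r hr
    rw [mem_Icc, not_and_or, not_le, not_le] at hy
    rcases hy with hy | hy
    · rcases le_or_gt 0 y with h | h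
      · rw [abs_of_nonneg h, abs_of_nonneg (by linarith [hr.1])]
        linarith [hr.1]
      · rw [abs_of_neg h, abs_of_nonneg (by linarith [hr.1])]
        linarith [hr.1]
    · rw [abs_of_nonneg (by linarith : 0 ≤ y), abs_of_nonpos (by linarith [hr.2])]
      linarith [hr.2]
  have key := T1 (1 / 4) 2 y t M ((1 + |y|) / 9) h14 ht hM0
    (by have := abs_nonneg y; linarith)
    (fun r => Em (r, y, ε)) (fun r => nr (r, 1, ε) ^ 3)
    (fun r => h0 (r, 1, ε) * nr (r, 1, ε) ^ 3)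
    (fun r => dr (fun p => h0 p * nr p ^ 3) (r, 1, ε))
    (fun r => dr (fun p => nr p ^ 3 * (h0 p * nr p ^ 3)) (r, 1, ε))
    (fun r => dr (fun p => nr p ^ 3 * dr (fun p => h0 p * nr p ^ 3) p) (r, 1, ε))
    (fun r _ => hd_Er r y ε)
    (fun r _ => (pow_pos (nr_pos _) 3).ne')
    (hk.continuousOn.comp hline.continuousOn hmap)
    (fun r hr => hd_r hG (hmap hr))
    (fun r hr => hd_r hKG (hmap hr))
    (fun r hr => hd_r hKG1 (hmap hr))
    ((cd_dr hKG).continuousOn.comp hline.continuousOn hmap)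
    ((cd_dr hKG1).continuousOn.comp hline.continuousOn hmap)
    ((cd_dr hG).continuousOn.comp hline.continuousOn hmap)
    (fun r hr => (H1 _ (hmem r hr)).trans (by linarith))
    (fun r hr => (H2 _ (hmem r hr)).trans (by linarith))
    (fun r hr => (H3 _ (hmem r hr)).trans (by linarith))
    (fun r hr => (H4 _ (hmem r hr)).trans (by linarith))
    hs
    (sG _ (hmap ⟨le_rfl, h14⟩) n1) (sG _ (hmap ⟨h14, le_rfl⟩) n2)
    (sup_dr sG _ (hmap ⟨le_rfl, h14⟩) n1) (sup_dr sG _ (hmap ⟨h14, le_rfl⟩) n2)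
  have e1 : J h0 ε t y = ∫ r in (1 / 4 : ℝ)..2, ((h0 (r, 1, ε) * nr (r, 1, ε) ^ 3 /
      nr (r, 1, ε) ^ 3 : ℝ) : ℂ) * cexp (-(I * ((t * Em (r, y, ε) : ℝ) : ℂ))) := by
    unfold J
    congr 1
    ext r
    rw [mul_div_cancel_right₀ _ (pow_pos (nr_pos _) 3).ne']
    rfl
  rw [e1]
  refine key.trans ?_
  have hpos : 0 < 1 + |y| := by positivity
  rw [div_le_div_iff₀ (by positivity) (by positivity)]
  have e2 : 271 * M / ((1 + |y|) / 9) ^ 2 * (2 - 1 / 4) * (t ^ 2 * (1 + |y|) ^ 2) =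
      271 * M * 81 * (7 / 4) * t ^ 2 := by
    field_simp
    ring
  rw [e2]
  have : 0 ≤ 271 * M * 81 := by positivity
  nlinarith [mul_nonneg this (sq_nonneg t)]

/-- a smooth cut-off: `1` on `[1/8, 4]`, `0` off `[1/16, 8]` -/
noncomputable def X (y : ℝ) : ℝ :=
  Real.smoothTransition (16 * y - 1) * Real.smoothTransition (2 - y / 4)

theorem cd_X : ContDiff ℝ ∞ X := by
  unfold X
  exact (Real.smoothTransition.contDiff.comp (by fun_prop)).mul
    (Real.smoothTransition.contDiff.comp (by fun_prop))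

theorem X_one {y : ℝ} (h : y ∈ Icc (1 / 8 : ℝ) 4) : X y = 1 := by
  unfold X
  rw [Real.smoothTransition.one_of_one_le (by linarith [h.1]),
    Real.smoothTransition.one_of_one_le (by linarith [h.2]), one_mul]

theorem X_zero {y : ℝ} (h : y ∉ Icc (1 / 16 : ℝ) 8) : X y = 0 := by
  unfold X
  rw [mem_Icc, not_and_or, not_le, not_le] at h
  rcases h with h | h
  · rw [Real.smoothTransition.zero_of_nonpos (by linarith), zero_mul]
  · rw [Real.smoothTransition.zero_of_nonpos (x := 2 - y / 4) (by linarith), mul_zero]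

theorem X_nonneg (y : ℝ) : 0 ≤ X y :=
  mul_nonneg (Real.smoothTransition.nonneg _) (Real.smoothTransition.nonneg _)

theorem X_le_one (y : ℝ) : X y ≤ 1 :=
  mul_le_one₀ (Real.smoothTransition.le_one _) (Real.smoothTransition.nonneg _)
    (Real.smoothTransition.le_one _)

theorem deriv_zero_off {f : ℝ → ℝ} (hf : ∀ y, y ∉ Icc (1 / 16 : ℝ) 8 → f y = 0) (y : ℝ)
    (h : y ∉ Icc (1 / 16 : ℝ) 8) : deriv f y = 0 := by
  have hO : IsOpen (Icc (1 / 16 : ℝ) 8)ᶜ := isClosed_Icc.isOpen_compl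
  have : f =ᶠ[𝓝 y] fun _ => (0 : ℝ) := by
    filter_upwards [hO.mem_nhds h] with q hq
    exact hf q hq
  rw [this.deriv_eq]
  simp

theorem bd_off {f : ℝ → ℝ} (hc : Continuous f) (hf : ∀ y, y ∉ Icc (1 / 16 : ℝ) 8 → f y = 0) :
    ∃ C : ℝ, 0 ≤ C ∧ ∀ y, |f y| ≤ C := by
  obtain ⟨C, hC⟩ := (isCompact_Icc (a := (1 / 16 : ℝ)) (b := 8)).exists_bound_of_continuousOn
    hc.continuousOn
  refine ⟨max C 0, le_max_right _ _, fun y => ?_⟩
  by_cases h : y ∈ Icc (1 / 16 : ℝ) 8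
  · exact (hC y h).trans (le_max_left _ _)
  · rw [hf y h, abs_zero]
    exact le_max_right _ _

/-- gluing with `0` -/
theorem glue_hd {F F' : ℝ → ℂ}
    (h0 : ∀ y, y < 1 / 16 → F y = 0 ∧ F' y = 0) (h1 : ∀ y, 0 < y → HasDerivAt F (F' y) y) (y : ℝ) :
    HasDerivAt F (F' y) y := by
  rcases lt_or_ge y (1 / 16) with h | h
  · rw [(h0 y h).2]
    have : F =ᶠ[𝓝 y] fun _ => (0 : ℂ) := by
      filter_upwards [Iio_mem_nhds h] with q hq
      exact (h0 q hq).1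
    exact (hasDerivAt_const y (0 : ℂ)).congr_of_eventuallyEq this
  · exact h1 y (by linarith)

theorem stat : Stat := by
  intro A0 _
  have c0 : ContDiffOn ℝ ∞ h0 U := cd_h0.contDiffOn
  have c1 := cd_Dm c0
  have c2 := cd_Dm c1
  have s0 := sup_h0
  have s1 := sup_Dm s0
  have s2 := sup_Dm s1
  obtain ⟨CJ0, p0, B0⟩ := J_bound c0 s0 A0
  obtain ⟨CJ1, p1, B1⟩ := J_bound c1 s1 A0
  obtain ⟨CJ2, p2, B2⟩ := J_bound c2 s2 A0
  obtain ⟨CT, pT, BT⟩ := tail A0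
  have dX : ContDiff ℝ ∞ (deriv X) := (contDiff_infty_iff_deriv.1 cd_X).2
  have dX2 : ContDiff ℝ ∞ (deriv (deriv X)) := (contDiff_infty_iff_deriv.1 dX).2
  have zX : ∀ y, y ∉ Icc (1 / 16 : ℝ) 8 → X y = 0 := fun y h => X_zero h
  have zX1 := deriv_zero_off zX
  have zX2 := deriv_zero_off zX1
  obtain ⟨x1, px1, bx1⟩ := bd_off dX.continuous zX1
  obtain ⟨x2, px2, bx2⟩ := bd_off dX2.continuous zX2
  set C : ℝ := (1 + 2 * x1 + x2) * (CJ0 + CJ1 + CJ2) + CT + 1 with hC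
  have hCpos : 0 < C := by positivity
  refine ⟨1 / 16, 8, C, by norm_num, hCpos, ?_⟩
  intro ε t he hA ht
  have ht0 : 0 < t := by linarith
  have hst : 0 < √t := Real.sqrt_pos.2 ht0
  set J0 := J h0 ε t with hJ0
  set J1 := J (Dm h0) ε t with hJ1
  set J2 := J (Dm (Dm h0)) ε t with hJ2
  set c : ℝ := C⁻¹ * √t with hc
  have hc0 : 0 < c := by positivity
  have hX : ∀ y, HasDerivAt (fun y => ((X y : ℝ) : ℂ)) ((deriv X y : ℝ) : ℂ) y := fun y =>
    ((cd_X.differentiable (by simp)) y).hasDerivAt.ofReal_comp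
  have hX1 : ∀ y, HasDerivAt (fun y => ((deriv X y : ℝ) : ℂ)) ((deriv (deriv X) y : ℝ) : ℂ) y :=
    fun y => ((dX.differentiable (by simp)) y).hasDerivAt.ofReal_comp
  have d0 : ∀ y, 0 < y → HasDerivAt J0 (J1 y) y := fun y hy => hasDerivAt_J c0 s0 ε t hy
  have d1 : ∀ y, 0 < y → HasDerivAt J1 (J2 y) y := fun y hy => hasDerivAt_J c1 s1 ε t hy
  have d2 : ∀ y, 0 < y → HasDerivAt J2 (J (Dm (Dm (Dm h0))) ε t y) y :=
    fun y hy => hasDerivAt_J c2 s2 ε t hy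
  have notin : ∀ y : ℝ, y < 1 / 16 → y ∉ Icc (1 / 16 : ℝ) 8 := fun y h h' => by linarith [h'.1]
  set A : ℝ → ℂ := fun y => (c : ℂ) * ((X y : ℂ) * J0 y) with hAdef
  set A1 : ℝ → ℂ := fun y => (c : ℂ) * (((deriv X y : ℝ) : ℂ) * J0 y + (X y : ℂ) * J1 y) with hA1
  set A2 : ℝ → ℂ := fun y => (c : ℂ) * ((((deriv (deriv X) y : ℝ) : ℂ) * J0 y + ((deriv X y : ℝ) : ℂ) * J1 y) +
    (((deriv X y : ℝ) : ℂ) * J1 y + (X y : ℂ) * J2 y)) with hA2
  have hz : ∀ y, y ∉ Icc (1 / 16 : ℝ) 8 → A y = 0 ∧ A1 y = 0 ∧ A2 y = 0 := by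
    intro y h
    simp only [hAdef, hA1, hA2, zX y h, zX1 y h, zX2 y h]
    simp
  have hd0 : ∀ y, HasDerivAt A (A1 y) y := by
    refine glue_hd (fun y h => ⟨(hz y (notin y h)).1, (hz y (notin y h)).2.1⟩) ?_
    intro y hy
    exact ((hX y).mul (d0 y hy)).const_mul (c : ℂ)
  have hd1 : ∀ y, HasDerivAt A1 (A2 y) y := by
    refine glue_hd (fun y h => ⟨(hz y (notin y h)).2.1, (hz y (notin y h)).2.2⟩) ?_
    intro y hy
    exact (((hX1 y).mul (d0 y hy)).add ((hX y).mul (d1 y hy))).const_mul (c : ℂ)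
  have cA2 : Continuous A2 := by
    rw [continuous_iff_continuousAt]
    intro y
    rcases lt_or_ge y (1 / 16) with h | h
    · have : A2 =ᶠ[𝓝 y] fun _ => (0 : ℂ) := by
        filter_upwards [Iio_mem_nhds h] with q hq
        exact (hz q (notin q hq)).2.2
      exact (continuousAt_const (y := (0 : ℂ))).congr this.symm
    · have hy : 0 < y := by linarith
      have k0 := (d0 y hy).continuousAt
      have k1 := (d1 y hy).continuousAt
      have k2 := (d2 y hy).continuousAt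
      have l0 := (hX y).continuousAt
      have l1 := (hX1 y).continuousAt
      have l2 : ContinuousAt (fun y => ((deriv (deriv X) y : ℝ) : ℂ)) y :=
        (Complex.continuous_ofReal.comp dX2.continuous).continuousAt
      exact continuousAt_const.mul (((l2.mul k0).add (l1.mul k1)).add ((l1.mul k1).add (l0.mul k2)))
  have hcC : ∀ v : ℝ, c * (v / √t) = v / C := by
    intro v
    rw [hc]
    field_simp
  have nX : ∀ y, ‖(X y : ℂ)‖ ≤ 1 := fun y => by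
    rw [Complex.norm_real, Real.norm_eq_abs, abs_of_nonneg (X_nonneg y)]
    exact X_le_one y
  have nX1 : ∀ y, ‖((deriv X y : ℝ) : ℂ)‖ ≤ x1 := fun y => by
    rw [Complex.norm_real, Real.norm_eq_abs]
    exact bx1 y
  have nX2 : ∀ y, ‖((deriv (deriv X) y : ℝ) : ℂ)‖ ≤ x2 := fun y => by
    rw [Complex.norm_real, Real.norm_eq_abs]
    exact bx2 y
  have ncc : ‖(c : ℂ)‖ = c := by rw [Complex.norm_real, Real.norm_eq_abs, abs_of_pos hc0]
  have nmul : ∀ (a b : ℂ) (u v : ℝ), ‖a‖ ≤ u → ‖b‖ ≤ v / √t → 0 ≤ v → ‖a * b‖ ≤ u * v / √t := by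
    intro a b u v ha hb hv
    rw [norm_mul, mul_div_assoc]
    exact mul_le_mul ha hb (norm_nonneg _) ((norm_nonneg _).trans ha)
  have one_le : ∀ v : ℝ, v ≤ C → v / C ≤ 1 := fun v hv => (div_le_one hCpos).2 hv
  have fin : ∀ (z : ℂ) (v : ℝ), ‖z‖ ≤ v / √t → v ≤ C → ‖(c : ℂ) * z‖ ≤ 1 := by
    intro z v h1 h2
    rw [norm_mul, ncc]
    calc c * ‖z‖ ≤ c * (v / √t) := mul_le_mul_of_nonneg_left h1 hc0.le
      _ = v / C := hcC v
      _ ≤ 1 := one_le v h2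
  have q0 : 0 ≤ x1 * CJ0 := by positivity
  have q1 : 0 ≤ x1 * CJ1 := by positivity
  have q2 : 0 ≤ x2 * CJ0 := by positivity
  have q3 : 0 ≤ x1 * CJ2 := by positivity
  have q4 : 0 ≤ x2 * CJ1 := by positivity
  have q5 : 0 ≤ x2 * CJ2 := by positivity
  have hAC : AC A := by
    refine ⟨A1, A2, cA2, hd0, hd1, fun y => ?_⟩
    by_cases hy : y ∈ Icc (1 / 16 : ℝ) 8
    · have b0 : ‖J0 y‖ ≤ CJ0 / √t := B0 ε t y he hA ht0 hy
      have b1 : ‖J1 y‖ ≤ CJ1 / √t := B1 ε t y he hA ht0 hy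
      have b2 : ‖J2 y‖ ≤ CJ2 / √t := B2 ε t y he hA ht0 hy
      have m00 := nmul _ _ _ _ (nX y) b0 p0
      have m01 := nmul _ _ _ _ (nX y) b1 p1
      have m02 := nmul _ _ _ _ (nX y) b2 p2
      have m10 := nmul _ _ _ _ (nX1 y) b0 p0
      have m11 := nmul _ _ _ _ (nX1 y) b1 p1
      have m20 := nmul _ _ _ _ (nX2 y) b0 p0
      refine ⟨?_, ?_, ?_⟩
      · refine fin _ (1 * CJ0) m00 ?_
        rw [hC]; nlinarith
      · refine fin _ (x1 * CJ0 + 1 * CJ1) ?_ ?_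
        · refine (norm_add_le _ _).trans ?_
          rw [add_div]
          exact add_le_add m10 m01
        · rw [hC]; nlinarith
      · refine fin _ ((x2 * CJ0 + x1 * CJ1) + (x1 * CJ1 + 1 * CJ2)) ?_ ?_
        · rw [add_div, add_div, add_div]
          refine (norm_add_le _ _).trans (add_le_add ?_ ?_)
          · exact (norm_add_le _ _).trans (add_le_add m20 m11)
          · exact (norm_add_le _ _).trans (add_le_add m11 m02)
        · rw [hC]; nlinarith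
    · obtain ⟨z0, z1, z2⟩ := hz y hy
      rw [z0, z1, z2]
      simp
  refine ⟨A, hAC, fun y hy => (hz y hy).1, fun y => ?_⟩
  have e1 : ((C * t ^ (-(1 / 2) : ℝ) : ℝ) : ℂ) * (cexp (I * ((t * ph ε y : ℝ) : ℂ)) * A y) =
      cexp (I * ((t * ph ε y : ℝ) : ℂ)) * ((X y : ℂ) * J0 y) := by
    have e2 : C * t ^ (-(1 / 2) : ℝ) * c = 1 := by
      rw [hc, Real.rpow_neg ht0.le, ← Real.sqrt_eq_rpow]
      field_simp
    have e3 : ((C * t ^ (-(1 / 2) : ℝ) : ℝ) : ℂ) * (c : ℂ) = 1 := by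
      rw [← Complex.ofReal_mul, e2, Complex.ofReal_one]
    simp only [hAdef]
    calc _ = (((C * t ^ (-(1 / 2) : ℝ) : ℝ) : ℂ) * (c : ℂ)) *
          (cexp (I * ((t * ph ε y : ℝ) : ℂ)) * ((X y : ℂ) * J0 y)) := by ring
      _ = _ := by rw [e3, one_mul]
  rw [e1, KG_eq]
  have e4 : cexp (I * ((t * ph ε y : ℝ) : ℂ)) * J h0 ε t y -
      cexp (I * ((t * ph ε y : ℝ) : ℂ)) * ((X y : ℂ) * J0 y) =
      cexp (I * ((t * ph ε y : ℝ) : ℂ)) * (((1 - X y : ℝ) : ℂ) * J0 y) := by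
    simp only [hJ0]
    push_cast
    ring
  have e5 : ‖cexp (I * ((t * ph ε y : ℝ) : ℂ))‖ = 1 := by
    rw [mul_comm]; exact Complex.norm_exp_ofReal_mul_I _
  rw [e4, norm_mul, e5, one_mul, norm_mul]
  by_cases hy : y ∈ Icc (1 / 8 : ℝ) 4
  · rw [X_one hy]
    simp only [sub_self, Complex.ofReal_zero, norm_zero, zero_mul]
    positivity
  · have n1 : ‖((1 - X y : ℝ) : ℂ)‖ ≤ 1 := by
      rw [Complex.norm_real, Real.norm_eq_abs, abs_of_nonneg (by linarith [X_le_one y])]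
      linarith [X_nonneg y]
    calc ‖((1 - X y : ℝ) : ℂ)‖ * ‖J0 y‖ ≤ 1 * ‖J0 y‖ :=
          mul_le_mul_of_nonneg_right n1 (norm_nonneg _)
      _ = ‖J0 y‖ := one_mul _
      _ ≤ CT / (t ^ 2 * (1 + |y|) ^ 2) := BT ε t y he hA ht0 hy
      _ ≤ C / (t ^ 2 * (1 + |y|) ^ 2) := by
          apply div_le_div_of_nonneg_right _ (by positivity)
          rw [hC]
          have : 0 ≤ (1 + 2 * x1 + x2) * (CJ0 + CJ1 + CJ2) := by positivity
          linarith

end Pool.Agent.TH367.MV
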